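import Mathlib
import Pool.Agent.Helper9.OlsonAsymp

set_option autoImplicit false

namespace Pool.Agent.Results.MP_516cd6_nt.QuarterBound

open Finset
open Pool.Agent.Helper9.OlsonBound

/-- `Σ*(A)`: the set of sums of nonempty subsets of `A`. -/
def SumSet {G : Type} [AddCommGroup G] [DecidableEq G] (A : Finset G) : Finset G :=
  (A.powerset.filter (fun B => B.Nonempty)).image (fun B => ∑ b ∈ B, b)

/-- `A` is weakly zero-sum-free: `0` is not in `Σ*(A)`. -/
def WeaklyZeroSumFree {G : Type} [AddCommGroup G] [DecidableEq G] (A : Finset G) : Prop :=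
  (0 : G) ∉ SumSet A

/-- The values `|Σ*(A)|`, over all finite abelian groups `G` and all weakly zero-sum-free
subsets `A` of `G` with `m` elements. -/
def values (m : ℕ) : Set ℕ :=
  {n | ∃ (G : Type) (_ : AddCommGroup G) (_ : DecidableEq G) (_ : Finite G) (A : Finset G),
    A.card = m ∧ WeaklyZeroSumFree A ∧ (SumSet A).card = n}

/-- `f(m)`, the least of these values. -/
noncomputable def f (m : ℕ) : ℕ := sInf (values m)

section

variable {G : Type} [AddCommGroup G] [DecidableEq G]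

lemma zf_iff (A : Finset G) : WeaklyZeroSumFree A ↔ ZF A := by
  unfold WeaklyZeroSumFree SumSet ZF
  simp only [Finset.mem_image, Finset.mem_filter, Finset.mem_powerset, not_exists, not_and]
  constructor
  · intro h B hB hne
    exact h B ⟨hB, hne⟩
  · intro h B hB
    exact h B hB.1 hB.2

lemma sig_card (A : Finset G) (h : WeaklyZeroSumFree A) :
    (sig A).card = (SumSet A).card + 1 := by
  have h1 : sig A = insert 0 (SumSet A) := by
    ext z
    rw [mem_sig, Finset.mem_insert]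
    unfold SumSet
    simp only [Finset.mem_image, Finset.mem_filter, Finset.mem_powerset]
    constructor
    · rintro ⟨B, hB, rfl⟩
      rcases B.eq_empty_or_nonempty with rfl | hne
      · left; simp
      · right; exact ⟨B, ⟨hB, hne⟩, rfl⟩
    · rintro (rfl | ⟨B, ⟨hB, _⟩, rfl⟩)
      · exact ⟨∅, Finset.empty_subset _, by simp⟩
      · exact ⟨B, hB, rfl⟩
  rw [h1, Finset.card_insert_of_notMem h]

/-- sets of elements of order two -/
lemma sig_inv {I : Finset G} (hz : ZF I) (h2 : ∀ x ∈ I, x + x = 0) :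
    (sig I).card = 2 ^ I.card := by
  unfold sig
  rw [Finset.card_image_of_injOn, Finset.card_powerset]
  intro C hC D hD hCD
  simp only [Finset.coe_powerset, Set.mem_preimage, Set.mem_powerset_iff,
    Finset.coe_subset] at hC hD
  simp only at hCD
  have e1 : ∑ b ∈ C \ D, b + ∑ b ∈ C ∩ D, b = ∑ b ∈ C, b := by
    rw [← Finset.sum_union (Finset.disjoint_sdiff_inter C D), Finset.sdiff_union_inter]
  have e2 : ∑ b ∈ D \ C, b + ∑ b ∈ C ∩ D, b = ∑ b ∈ D, b := by
    rw [Finset.inter_comm, ← Finset.sum_union (Finset.disjoint_sdiff_inter D C),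
      Finset.sdiff_union_inter]
  have e3 : ∑ b ∈ C \ D, b = ∑ b ∈ D \ C, b := by
    have : ∑ b ∈ C \ D, b + ∑ b ∈ C ∩ D, b = ∑ b ∈ D \ C, b + ∑ b ∈ C ∩ D, b := by
      rw [e1, e2, hCD]
    exact add_right_cancel this
  have hdis : Disjoint (C \ D) (D \ C) := by
    rw [Finset.disjoint_left]
    intro z hz1 hz2
    exact (Finset.mem_sdiff.1 hz2).2 (Finset.mem_sdiff.1 hz1).1
  have e4 : ∑ b ∈ (C \ D) ∪ (D \ C), b = 0 := by
    rw [Finset.sum_union hdis, ← e3, ← Finset.sum_add_distrib]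
    exact Finset.sum_eq_zero (fun x hx => h2 x (hC (Finset.mem_sdiff.1 hx).1))
  have e5 : (C \ D) ∪ (D \ C) = ∅ := by
    by_contra hne
    exact hz _ (Finset.union_subset (Finset.sdiff_subset.trans hC) (Finset.sdiff_subset.trans hD))
      (Finset.nonempty_iff_ne_empty.2 hne) e4
  rw [Finset.union_eq_empty, Finset.sdiff_eq_empty_iff_subset,
    Finset.sdiff_eq_empty_iff_subset] at e5
  exact Finset.Subset.antisymm e5.1 e5.2

lemma split_bound (S : Finset G) (hS : WeaklyZeroSumFree S) :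
    ∃ I S' : Finset G, I.card + S'.card = S.card ∧ S' ⊆ S ∧ (∀ x ∈ S', -x ∉ S') ∧
      2 ^ I.card + (sig S').card ≤ (SumSet S).card + 2 := by
  have hz := (zf_iff S).1 hS
  refine ⟨S.filter (fun x => x + x = 0), S.filter (fun x => ¬ x + x = 0), ?_,
    Finset.filter_subset _ _, ?_, ?_⟩
  · exact Finset.card_filter_add_card_filter_not (s := S) (fun x => x + x = 0)
  · intro x hx hx'
    rw [Finset.mem_filter] at hx hx'
    have hne : x ≠ -x := by
      intro h
      apply hx.2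
      nth_rewrite 2 [h]
      simp
    apply hz {x, -x} _ ⟨x, by simp⟩
    · rw [Finset.sum_pair hne]; simp
    · intro z hz'
      rw [Finset.mem_insert, Finset.mem_singleton] at hz'
      rcases hz' with rfl | rfl
      · exact hx.1
      · exact hx'.1
  · have hd : Disjoint (S.filter (fun x => x + x = 0)) (S.filter (fun x => ¬ x + x = 0)) :=
      Finset.disjoint_filter_filter_not _ _ _
    have hun : S.filter (fun x => x + x = 0) ∪ S.filter (fun x => ¬ x + x = 0) = S :=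
      Finset.filter_union_filter_not_eq _ _
    have h1 := sig_superadd hd (by rw [hun]; exact hz)
    rw [hun, sig_inv (hz.mono (Finset.filter_subset _ _))
      (fun x hx => (Finset.mem_filter.1 hx).2), sig_card S hS] at h1
    omega

end

lemma cube_le_pow (s : ℕ) : ((s : ℝ) / 5) ^ 3 ≤ (2 : ℝ) ^ s := by
  have h1 : 1 + (s : ℝ) * (1 / 5) ≤ (1 + 1 / 5 : ℝ) ^ s :=
    one_add_mul_le_pow (by norm_num) s
  have h2 : ((1 + 1 / 5 : ℝ) ^ s) ^ 3 ≤ (2 : ℝ) ^ s := by
    rw [← pow_mul, mul_comm, pow_mul]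
    exact pow_le_pow_left₀ (by norm_num) (by norm_num) s
  have hs : (0 : ℝ) ≤ s := Nat.cast_nonneg s
  have h3 : ((s : ℝ) / 5) ^ 3 ≤ ((1 + 1 / 5 : ℝ) ^ s) ^ 3 :=
    pow_le_pow_left₀ (by positivity) (by linarith) 3
  exact h3.trans h2

theorem main_bound {c : ℝ} (hc : c < 1 / 4) : ∃ M : ℕ, ∀ (G : Type) [AddCommGroup G]
    [DecidableEq G] [Finite G] (S : Finset G), WeaklyZeroSumFree S → M ≤ S.card →
    c * (S.card : ℝ) ^ 2 ≤ (SumSet S).card := by
  obtain ⟨c0, hc0⟩ : ∃ c0, c0 = max c 0 := ⟨_, rfl⟩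
  have hc00 : 0 ≤ c0 := by rw [hc0]; exact le_max_right _ _
  have hcc0 : c ≤ c0 := by rw [hc0]; exact le_max_left _ _
  have hc04 : c0 < 1 / 4 := by rw [hc0]; exact max_lt hc (by norm_num)
  obtain ⟨c1, h01, h14⟩ := exists_between hc04
  obtain ⟨M1, hM1⟩ := good_all h14
  obtain ⟨δ, hδ⟩ : ∃ δ, δ = c1 - c0 := ⟨_, rfl⟩
  have hδ0 : 0 < δ := by rw [hδ]; linarith
  have hδ4 : δ < 1 / 4 := by rw [hδ]; linarith
  obtain ⟨M', hM'⟩ := exists_nat_ge (2 * (M1 : ℝ) + 4 / δ + 250 / δ ^ 3 + 1)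
  refine ⟨M', ?_⟩
  intro G _ _ _ S hS hSM
  obtain ⟨m, hm⟩ : ∃ m, m = S.card := ⟨_, rfl⟩
  rw [← hm] at hSM ⊢
  have hmM : 2 * (M1 : ℝ) + 4 / δ + 250 / δ ^ 3 + 1 ≤ (m : ℝ) :=
    hM'.trans (by exact_mod_cast hSM)
  have p1 : 0 ≤ (M1 : ℝ) := Nat.cast_nonneg _
  have p2 : 0 ≤ 4 / δ := by positivity
  have p3 : 0 ≤ 250 / δ ^ 3 := by positivity
  have hm1 : (1 : ℝ) ≤ m := by linarith
  have hm0 : (0 : ℝ) ≤ m := by linarith
  have hm2 : 4 ≤ δ * m := by
    have : 4 / δ ≤ (m : ℝ) := by linarith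
    rw [div_le_iff₀ hδ0] at this
    linarith
  have hm3 : 250 ≤ δ ^ 3 * m := by
    have : 250 / δ ^ 3 ≤ (m : ℝ) := by linarith
    rw [div_le_iff₀ (by positivity)] at this
    linarith
  have hm4 : 2 * (M1 : ℝ) ≤ m := by linarith
  obtain ⟨I, S', hcard, hsub, hanti, hbd⟩ := split_bound S hS
  rw [← hm] at hcard
  have hz := (zf_iff S).1 hS
  have hcard' : (I.card : ℝ) + S'.card = m := by exact_mod_cast hcard
  have hbd' : (2 : ℝ) ^ I.card + (sig S').card ≤ (SumSet S).card + 2 := by exact_mod_cast hbd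
  have hfin : c0 * (m : ℝ) ^ 2 ≤ (SumSet S).card := by
    rcases le_or_gt (I.card : ℝ) (δ * m) with h | h
    · have h1 : (1 - δ) * m ≤ S'.card := by linarith
      have h2 : M1 ≤ S'.card := by
        have : (M1 : ℝ) ≤ S'.card := by nlinarith
        exact_mod_cast this
      have h3 := hM1 G S' (hz.mono hsub) hanti h2
      have h4 : ((1 - δ) * m) ^ 2 ≤ (S'.card : ℝ) ^ 2 := by
        apply pow_le_pow_left₀ _ h1
        have : 0 ≤ 1 - δ := by linarith
        positivity
      have h5 : c1 * ((1 - δ) * m) ^ 2 ≤ (sig S').card :=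
        le_trans (mul_le_mul_of_nonneg_left h4 (by linarith)) h3
      have h6 : (1 : ℝ) ≤ 2 ^ I.card := one_le_pow₀ (by norm_num)
      have h7 : (c0 + δ / 2) * (m : ℝ) ^ 2 ≤ c1 * ((1 - δ) * m) ^ 2 := by
        have e1 : c1 * ((1 - δ) * m) ^ 2 = (c1 * (1 - δ) ^ 2) * m ^ 2 := by ring
        rw [e1]
        apply mul_le_mul_of_nonneg_right _ (sq_nonneg _)
        have e2 : c0 = c1 - δ := by rw [hδ]; ring
        rw [e2]
        have e3 : c1 * δ ≤ (1 / 4) * δ := mul_le_mul_of_nonneg_right h14.le hδ0.le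
        have e4 : 0 ≤ c1 * δ ^ 2 := by
          have : 0 ≤ c1 := by linarith
          positivity
        have e5 : c1 * (1 - δ) ^ 2 = c1 - 2 * (c1 * δ) + c1 * δ ^ 2 := by ring
        rw [e5]
        linarith
      have h8 : 2 ≤ (δ / 2) * (m : ℝ) ^ 2 := by
        have e1 := mul_le_mul_of_nonneg_right hm2 hm0
        have e2 : (δ / 2) * (m : ℝ) ^ 2 = (δ * m * m) / 2 := by ring
        rw [e2]
        linarith
      have h9 : (c0 + δ / 2) * (m : ℝ) ^ 2 = c0 * m ^ 2 + (δ / 2) * m ^ 2 := by ring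
      linarith
    · have h1 := cube_le_pow I.card
      have h2 : (δ * m / 5) ^ 3 ≤ ((I.card : ℝ) / 5) ^ 3 :=
        pow_le_pow_left₀ (by positivity) (by linarith) 3
      have h3 : (1 : ℝ) ≤ (sig S').card := by exact_mod_cast sig_pos S'
      have h4 : (δ * m / 5) ^ 3 = (δ ^ 3 * m) * m ^ 2 / 125 := by ring
      have h5 : 250 * (m : ℝ) ^ 2 ≤ (δ ^ 3 * m) * m ^ 2 :=
        mul_le_mul_of_nonneg_right hm3 (sq_nonneg _)
      have h6 : (1 : ℝ) ≤ (m : ℝ) ^ 2 := one_le_pow₀ hm1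
      have h7 : c0 * (m : ℝ) ^ 2 ≤ (1 / 4) * m ^ 2 :=
        mul_le_mul_of_nonneg_right hc04.le (sq_nonneg _)
      linarith
  have : c * (m : ℝ) ^ 2 ≤ c0 * m ^ 2 := mul_le_mul_of_nonneg_right hcc0 (sq_nonneg _)
  linarith

/-- There are weakly zero-sum-free sets of every size. -/
lemma values_nonempty (m : ℕ) : (values m).Nonempty := by
  classical
  have hinj : Function.Injective (fun i : Fin m => (Pi.single i 1 : Fin m → ZMod 2)) := by
    intro i j hij
    by_contra hne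
    have h1 := congrFun hij i
    simp only [Pi.single_eq_same] at h1
    rw [Pi.single_eq_of_ne hne] at h1
    exact one_ne_zero h1
  let A : Finset (Fin m → ZMod 2) := univ.image (fun i : Fin m => (Pi.single i 1 : Fin m → ZMod 2))
  refine ⟨(SumSet A).card, (Fin m → ZMod 2), inferInstance, inferInstance, inferInstance, A,
    ?_, ?_, rfl⟩
  · rw [Finset.card_image_of_injective _ hinj, Finset.card_univ, Fintype.card_fin]
  · rw [zf_iff]
    intro B hB hne hsum
    obtain ⟨b, hb⟩ := hne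
    obtain ⟨i, _, hi⟩ := Finset.mem_image.1 (hB hb)
    have h1 : (∑ x ∈ B, x) i = 0 := by rw [hsum]; rfl
    rw [Finset.sum_apply] at h1
    rw [Finset.sum_eq_single b] at h1
    · rw [← hi] at h1
      simp only [Pi.single_eq_same] at h1
      exact one_ne_zero h1
    · intro x hx hxb
      obtain ⟨j, _, hj⟩ := Finset.mem_image.1 (hB hx)
      rw [← hj]
      apply Pi.single_eq_of_ne
      rintro rfl
      exact hxb (hj.symm.trans hi)
    · intro h
      exact absurd hb h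

/-- For every real `c < 1/4` (in particular for some `c > 1/9`, such as `c = 6/25`) one has
`f(m) ≥ ⌈c m²⌉` for all but finitely many `m`; moreover `f(m)` is an attained minimum. -/
theorem result :
    (∀ m : ℕ, f m ∈ values m) ∧ (∀ m : ℕ, ∀ n ∈ values m, f m ≤ n) ∧
    (∀ c : ℝ, c < 1 / 4 → ∃ M : ℕ, ∀ m : ℕ, M ≤ m → ⌈c * (m : ℝ) ^ 2⌉ ≤ (f m : ℤ)) := by
  have hmem : ∀ m : ℕ, f m ∈ values m := fun m => Nat.sInf_mem (values_nonempty m)
  refine ⟨hmem, fun m n hn => Nat.sInf_le hn, ?_⟩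
  intro c hc
  obtain ⟨M, hM⟩ := main_bound hc
  refine ⟨M, fun m hm => ?_⟩
  obtain ⟨G, iG, iD, iF, A, hA, hz, hcard⟩ := hmem m
  have h1 := @hM G iG iD iF A hz (by rw [hA]; exact hm)
  rw [hA, hcard] at h1
  rw [Int.ceil_le]
  exact_mod_cast h1

end Pool.Agent.Results.MP_516cd6_nt.QuarterBound
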